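import Pool.Agent.Mob.Stmts

/-!
# ANN: the initial scale estimate from the cells
-/

set_option autoImplicit false
set_option linter.unusedSectionVars false

open MeasureTheory ProbabilityTheory Function

open scoped ENNReal BigOperators

noncomputable section

namespace Pool.Agent.Mob.H98

open Pool.Agent.Anderson Pool.Agent.Loc

variable {d : ℕ} {ν : Measure ℝ} [IsProbabilityMeasure ν] {ρ : ℝ}

theorem PL_weak_sub (hν : BddDens ν ρ) {A Λ : Finset (Site d)} (hA : A ⊆ Λ) (E : ℝ)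
    (x y : Site d) {τ : ℝ} (hτ : 0 < τ) :
    PL ν Λ {V | τ < |gr V A E x y|} ≤ ENNReal.ofReal (6 * ρ / τ) := by
  have hS : MeasurableSet {V : Site d → ℝ | τ < |gr V A E x y|} :=
    measurableSet_lt measurable_const (measurable_gr A E x y).abs
  have h1 := PL_weak hν A E x y hτ
  rw [PL_apply _ hS] at h1 ⊢
  rw [marg_subset (measurable_one.indicator hS) _ hA]
  · exact h1
  · exact only_indicator fun V V' hVV => by
      rw [Set.mem_ofPred_eq, Set.mem_ofPred_eq, gr_congr hVV]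

/-- Cauchy-Schwarz for `pg` on an event. -/
theorem pg_event (hν : BddDens ν ρ) (Λ : Finset (Site d)) (E : ℝ) (x y : Site d)
    (B : Set (Site d → ℝ)) (hB : MeasurableSet B) {R : ℝ} (hR : 0 ≤ R)
    (h : PL ν Λ B ≤ ENNReal.ofReal R) :
    ∫⁻ V in B, pg Λ E x y V ∂(PL ν Λ) ≤ ENNReal.ofReal (√((1 + 2 * √(6 * ρ)) * R)) := by
  have hm : Measurable (pg Λ E x y) := measurable_pg Λ E x y
  have h1 : ∫⁻ V, pg Λ E x y V ^ (2 : ℝ) ∂(PL ν Λ) ≤ ENNReal.ofReal (1 + 2 * √(6 * ρ)) := by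
    have h2 : ∀ V, pg Λ E x y V ^ (2 : ℝ) ≤ 1 + ENNReal.ofReal (√|gr V Λ E x y|) := by
      intro V
      have := p8_sq_le (gr V Λ E x y)
      have e : pg Λ E x y V ^ (2 : ℝ) = p8 (gr V Λ E x y) ^ 2 := by
        rw [← ENNReal.rpow_natCast]
        norm_num [pg]
      rw [e]
      exact this
    calc _ ≤ ∫⁻ V, (1 + ENNReal.ofReal (√|gr V Λ E x y|)) ∂(PL ν Λ) := lintegral_mono h2
      _ = 1 + ∫⁻ V, ENNReal.ofReal (√|gr V Λ E x y|) ∂(PL ν Λ) := by
        rw [lintegral_add_left measurable_const, lintegral_const, measure_univ, mul_one]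
      _ ≤ 1 + ENNReal.ofReal (2 * √(6 * ρ)) := by
        gcongr
        exact PL_sqrt hν Λ E x y
      _ = ENNReal.ofReal (1 + 2 * √(6 * ρ)) := by
        rw [← ENNReal.ofReal_one, ← ENNReal.ofReal_add (by norm_num) (by positivity)]
  have h3 := ENNReal.lintegral_mul_le_Lp_mul_Lq (PL ν Λ) Real.HolderConjugate.two_two
    (f := pg Λ E x y) (g := B.indicator (1 : (Site d → ℝ) → ℝ≥0∞)) hm.aemeasurable
    (measurable_one.indicator hB).aemeasurable
  have h4 : ∫⁻ V, (pg Λ E x y * B.indicator (1 : (Site d → ℝ) → ℝ≥0∞)) V ∂(PL ν Λ) =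
      ∫⁻ V in B, pg Λ E x y V ∂(PL ν Λ) := by
    rw [← lintegral_indicator hB]
    apply lintegral_congr
    intro V
    by_cases hV : V ∈ B
    · simp [hV]
    · simp [hV]
  have h5 : ∫⁻ V, (B.indicator (1 : (Site d → ℝ) → ℝ≥0∞)) V ^ (2 : ℝ) ∂(PL ν Λ) = PL ν Λ B := by
    rw [← lintegral_indicator_one hB]
    apply lintegral_congr
    intro V
    by_cases hV : V ∈ B
    · simp [hV]
    · simp [hV]
  rw [h4, h5] at h3
  refine h3.trans ?_
  rw [Real.sqrt_eq_rpow, ← ENNReal.ofReal_rpow_of_nonneg (by positivity) (by norm_num),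
    ENNReal.ofReal_mul (by positivity), ENNReal.mul_rpow_of_nonneg _ _ (by norm_num)]
  gcongr

theorem ann (hana : AnaStmt) (hanb : AnbStmt) : AnnStmt := by
  intro d ν _ ρ hν m ℓ A τ p E hm hℓ hA hτ hp hcell x u hxu
  have hρ := hν.1
  set L : ℕ := 10 * (m + 1) * ℓ with hL
  set Λ := box x L with hΛ
  set t₀ : ℝ := τ ^ 2 * A * (2 * d * (20 * (m + 1) * ℓ + 1) ^ d) ^ 2 with ht₀
  set R : ℝ := (m + 1) * ((20 * (m + 1) * ℓ + 1) ^ d) ^ 2 * (6 * ρ / τ) +
    ((20 * m + 23) ^ d * p) ^ m with hR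
  have hsub : ∀ i : ℕ, i ≤ m → box x (10 * i * ℓ) ⊆ Λ := by
    intro i hi
    apply box_mono
    rw [hL]
    gcongr
    omega
  set N0 : Set (Site d → ℝ) := {V | (RM V Λ E).det = 0} with hN0
  set N1 : Set (Site d → ℝ) :=
    ⋃ i ∈ Finset.Icc 1 m, {V | (RM V (box x (10 * i * ℓ)) E).det = 0} with hN1
  set W1 : Set (Site d → ℝ) := ⋃ i ∈ Finset.Icc 1 m, ⋃ v ∈ Λ,
    {V | τ < |gr V (box x (10 * i * ℓ)) E x v|} with hW1
  set W2 : Set (Site d → ℝ) := ⋃ w ∈ Λ, {V | τ < |gr V Λ E w u|} with hW2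
  set B3 : Set (Site d → ℝ) :=
    {V | ∀ i : ℕ, 1 ≤ i → i ≤ m → ∃ c ∈ cells x ℓ i, ¬ CellGood V c ℓ A E} with hB3
  have e0 : PL ν Λ N0 = 0 := PL_det hν Λ Λ le_rfl E
  have e1 : PL ν Λ N1 = 0 := by
    refine le_antisymm ((measure_biUnion_finset_le _ _).trans ?_) zero_le
    apply le_of_eq
    apply Finset.sum_eq_zero
    intro i hi
    exact PL_det hν _ _ (hsub i (Finset.mem_Icc.1 hi).2) E
  have hcard : (Λ.card : ℝ) = (20 * (m + 1) * ℓ + 1) ^ d := by
    rw [hΛ, card_box, hL]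
    push_cast
    ring
  have hc1 : (1 : ℝ) ≤ (20 * (m + 1) * ℓ + 1) ^ d := by
    apply one_le_pow₀
    have : (0 : ℝ) ≤ 20 * (m + 1) * ℓ := by positivity
    linarith
  have e2 : PL ν Λ W1 ≤ ENNReal.ofReal (m * Λ.card * (6 * ρ / τ)) := by
    refine (measure_biUnion_finset_le _ _).trans ?_
    have : ∀ i ∈ Finset.Icc 1 m, PL ν Λ (⋃ v ∈ Λ, {V | τ < |gr V (box x (10 * i * ℓ)) E x v|}) ≤
        ENNReal.ofReal (Λ.card * (6 * ρ / τ)) := by
      intro i hi
      refine (measure_biUnion_finset_le _ _).trans ?_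
      refine (Finset.sum_le_sum fun v _ =>
        PL_weak_sub hν (hsub i (Finset.mem_Icc.1 hi).2) E x v hτ).trans ?_
      rw [Finset.sum_const, nsmul_eq_mul, ENNReal.ofReal_mul (by positivity),
        ENNReal.ofReal_natCast]
    refine (Finset.sum_le_sum this).trans ?_
    rw [Finset.sum_const, nsmul_eq_mul, Nat.card_Icc, mul_assoc (m : ℝ),
      ENNReal.ofReal_mul (p := (m : ℝ)) (by positivity), ENNReal.ofReal_natCast]
    simp
  have e3 : PL ν Λ W2 ≤ ENNReal.ofReal (Λ.card * (6 * ρ / τ)) := by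
    refine (measure_biUnion_finset_le _ _).trans ?_
    refine (Finset.sum_le_sum fun w _ => PL_weak hν Λ E w u hτ).trans ?_
    rw [Finset.sum_const, nsmul_eq_mul, ENNReal.ofReal_mul (by positivity),
      ENNReal.ofReal_natCast]
  have e4 : PL ν Λ B3 ≤ ENNReal.ofReal (((20 * m + 23) ^ d * p) ^ m) :=
    hanb d ν E A p m ℓ x hℓ hp hcell
  have hbad : PL ν Λ (N0 ∪ N1 ∪ W1 ∪ W2 ∪ B3) ≤ ENNReal.ofReal R := by
    calc _ ≤ PL ν Λ (N0 ∪ N1 ∪ W1 ∪ W2) + PL ν Λ B3 := measure_union_le _ _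
      _ ≤ PL ν Λ (N0 ∪ N1 ∪ W1) + PL ν Λ W2 + PL ν Λ B3 := by
        gcongr
        exact measure_union_le _ _
      _ ≤ PL ν Λ (N0 ∪ N1) + PL ν Λ W1 + PL ν Λ W2 + PL ν Λ B3 := by
        gcongr
        exact measure_union_le _ _
      _ ≤ 0 + ENNReal.ofReal (m * Λ.card * (6 * ρ / τ)) + ENNReal.ofReal (Λ.card * (6 * ρ / τ)) +
          ENNReal.ofReal (((20 * m + 23) ^ d * p) ^ m) := by
        gcongr
        refine (measure_union_le _ _).trans ?_
        rw [e0, e1, add_zero]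
      _ ≤ ENNReal.ofReal R := by
        rw [zero_add, ← ENNReal.ofReal_add (by positivity) (by positivity),
          ← ENNReal.ofReal_add (by positivity) (by positivity)]
        apply ENNReal.ofReal_le_ofReal
        rw [hR, hcard]
        gcongr
        have h6 : (0 : ℝ) ≤ 6 * ρ / τ := by positivity
        have h7 : ((20 * (m + 1) * ℓ + 1) ^ d : ℝ) ≤ ((20 * (m + 1) * ℓ + 1) ^ d) ^ 2 := by
          rw [pow_two]
          nlinarith
        have h8 : (m : ℝ) * (20 * (m + 1) * ℓ + 1) ^ d * (6 * ρ / τ) +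
            (20 * (m + 1) * ℓ + 1) ^ d * (6 * ρ / τ) =
            (m + 1) * (20 * (m + 1) * ℓ + 1) ^ d * (6 * ρ / τ) := by ring
        rw [h8]
        gcongr
  set B : Set (Site d → ℝ) := toMeasurable (PL ν Λ) (N0 ∪ N1 ∪ W1 ∪ W2 ∪ B3) with hB
  have hBm : MeasurableSet B := measurableSet_toMeasurable _ _
  have hBR : PL ν Λ B ≤ ENNReal.ofReal R := by
    rw [hB, measure_toMeasurable]
    exact hbad
  have hgood : ∀ V ∈ Bᶜ, pg Λ E x u V ≤ ENNReal.ofReal (t₀ ^ (1 / 8 : ℝ)) := by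
    intro V hV
    have hV' : V ∉ N0 ∪ N1 ∪ W1 ∪ W2 ∪ B3 := fun h => hV (subset_toMeasurable _ _ h)
    simp only [Set.mem_union, not_or] at hV'
    obtain ⟨⟨⟨⟨v0, v1⟩, v2⟩, v3⟩, v4⟩ := hV'
    rw [hB3, Set.mem_ofPred_eq] at v4
    push Not at v4
    obtain ⟨i, hi1, him, hi⟩ := v4
    have hi' : i ∈ Finset.Icc 1 m := Finset.mem_Icc.2 ⟨hi1, him⟩
    have w1 : (RM V (box x (10 * i * ℓ)) E).det ≠ 0 := by
      intro h
      exact v1 (Set.mem_biUnion hi' h)
    have w2 : ∀ v, |gr V (box x (10 * i * ℓ)) E x v| ≤ τ := by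
      intro v
      by_contra hc
      rw [not_le] at hc
      have hne : gr V (box x (10 * i * ℓ)) E x v ≠ 0 := by
        intro h0
        rw [h0, abs_zero] at hc
        linarith
      have hv := (gr_ne_zero hne).2.1
      exact v2 (Set.mem_biUnion hi' (Set.mem_biUnion (hsub i him hv) hc))
    have w3 : ∀ w, |gr V Λ E w u| ≤ τ := by
      intro w
      by_contra hc
      rw [not_le] at hc
      have hne : gr V Λ E w u ≠ 0 := by
        intro h0
        rw [h0, abs_zero] at hc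
        linarith
      have hw := (gr_ne_zero hne).1
      exact v3 (Set.mem_biUnion hw hc)
    have key := hana d V E A τ m ℓ i x u hℓ hi1 him hA hτ.le hxu v0 w1 w2 w3 hi
    unfold pg p8
    exact ENNReal.ofReal_le_ofReal (Real.rpow_le_rpow (abs_nonneg _) key (by norm_num))
  have hR0 : 0 ≤ R := by
    rw [hR]; positivity
  calc ∫⁻ V, pg Λ E x u V ∂(PL ν Λ)
      = ∫⁻ V in B, pg Λ E x u V ∂(PL ν Λ) + ∫⁻ V in Bᶜ, pg Λ E x u V ∂(PL ν Λ) :=
        (lintegral_add_compl _ hBm).symm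
    _ ≤ ENNReal.ofReal (√((1 + 2 * √(6 * ρ)) * R)) + ENNReal.ofReal (t₀ ^ (1 / 8 : ℝ)) := by
        gcongr
        · exact pg_event hν Λ E x u B hBm hR0 hBR
        · calc ∫⁻ V in Bᶜ, pg Λ E x u V ∂(PL ν Λ)
              ≤ ∫⁻ V in Bᶜ, ENNReal.ofReal (t₀ ^ (1 / 8 : ℝ)) ∂(PL ν Λ) :=
                setLIntegral_mono measurable_const hgood
            _ = ENNReal.ofReal (t₀ ^ (1 / 8 : ℝ)) * PL ν Λ Bᶜ := by rw [setLIntegral_const]
            _ ≤ ENNReal.ofReal (t₀ ^ (1 / 8 : ℝ)) * 1 := by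
                gcongr
                exact prob_le_one
            _ = _ := mul_one _
    _ = ENNReal.ofReal (t₀ ^ (1 / 8 : ℝ) + √((1 + 2 * √(6 * ρ)) * R)) := by
        rw [← ENNReal.ofReal_add (by positivity) (by positivity), add_comm]

end Pool.Agent.Mob.H98
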