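import Pool.Agent.Mob.Stmts

/-!
# DIC: eigenvectors of a cube are small in the inner cube or in the shell
-/

set_option autoImplicit false
set_option linter.unusedSectionVars false

open MeasureTheory ProbabilityTheory Function Filter

open scoped ENNReal BigOperators Topology

noncomputable section

namespace Pool.Agent.Mob.H98

open Pool.Agent.Anderson Pool.Agent.Loc

variable {d : ℕ}

theorem exists_sd (hd : 1 ≤ d) (x : Site d) (L : ℕ) : ∃ u, sd x u = L := by
  have i : Fin d := ⟨0, hd⟩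
  refine ⟨Function.update x i (x i + L), ?_⟩
  apply le_antisymm
  · rw [sd_le_iff]
    intro j
    by_cases hj : j = i
    · subst hj
      simp
    · rw [Function.update_of_ne hj, sub_self, abs_zero]
      omega
  · have h1 := sd_le_iff.1 (le_refl (sd x (Function.update x i (x i + L)))) i
    rw [Function.update_self, sub_add_cancel_left, abs_neg, abs_of_nonneg (by omega)] at h1
    exact_mod_cast h1

theorem fgood_bound (hd : 1 ≤ d) {V : Site d → ℝ} {L : ℕ} {x : Site d} {E μ : ℝ}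
    (hg : FGood V L x E μ) {ψ : Site d → ℂ}
    (hψ : ∀ y ∈ box x L, lap ψ y + (V y : ℂ) * ψ y = (E : ℂ) * ψ y)
    {M : ℝ} (hM : ∀ y ∈ box x (L + 1), ‖ψ y‖ ≤ M) :
    ‖ψ x‖ ≤ 2 * d * (2 * L + 1) ^ d * Real.exp (-μ * L) * M := by
  set n : ℕ := sd 0 x + L with hn
  have hsub : box x L ∩ box (0 : Site d) n = box x L := by
    rw [Finset.inter_eq_left]
    intro y hy
    rw [mem_box] at *
    have := sd_triangle 0 x y
    omega
  obtain ⟨u, hu⟩ := exists_sd hd x L
  apply goodBox_bound (n := n) (L := L) (x := x) (E := E) (μ := μ) (V := V)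
  · intro u hu1 hu2
    rw [hsub]
    exact hg u hu2
  · rw [mem_box]
    omega
  · refine ⟨u, ?_, hu⟩
    rw [hsub, mem_box]
    exact hu.le
  · rw [hsub]
    exact hψ
  · intro y hy hy'
    exfalso
    apply hy'
    rw [← hsub] at hy
    exact (Finset.mem_inter.1 hy).2
  · exact hM

/-- the eigenvector is small on a set without eigenvalues near `E` if it is small around it -/
theorem small_of_noEig (hnrm : NrmStmt) {V : Site d → ℝ} {A : Finset (Site d)} {E r ε : ℝ}
    (hr : 0 < r) (hE : NoEig V A E r) (hε : 0 ≤ ε) {ψ : Site d → ℂ}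
    (hψ : ∀ x ∈ A, lap ψ x + (V x : ℂ) * ψ x = (E : ℂ) * ψ x)
    (hs : ∀ x ∈ A, ∀ y ∈ box x 1, y ∉ A → ‖ψ y‖ ≤ ε) :
    r ^ 2 * ∑ x ∈ A, ‖ψ x‖ ^ 2 ≤ A.card * (2 * d * ε) ^ 2 := by
  have h1 := hnrm d V A E r hr hE (fun y => if y ∈ A then ψ y else 0)
    (fun x hx => by rw [if_neg hx])
  have h2 : ∑ x ∈ A, ‖(fun y => if y ∈ A then ψ y else 0) x‖ ^ 2 = ∑ x ∈ A, ‖ψ x‖ ^ 2 := by
    apply Finset.sum_congr rfl
    intro x hx
    beta_reduce
    rw [if_pos hx]
  rw [h2] at h1
  refine h1.trans ?_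
  rw [← nsmul_eq_mul]
  apply Finset.sum_le_card_nsmul
  intro x hx
  have h3 : lap ψ x = lap (fun y => if y ∈ A then ψ y else 0) x +
      lap (fun y => if y ∈ A then 0 else ψ y) x := by
    rw [← lap_add]
    congr 1
    funext y
    by_cases hy : y ∈ A <;> simp [hy]
  have h4 := hψ x hx
  have h5 : lap (fun y => if y ∈ A then ψ y else 0) x +
      (V x : ℂ) * (if x ∈ A then ψ x else 0) - (E : ℂ) * (if x ∈ A then ψ x else 0) =
      - lap (fun y => if y ∈ A then 0 else ψ y) x := by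
    rw [if_pos hx, ← h4, h3]
    ring
  rw [h5, norm_neg]
  have h6 : ‖lap (fun y => if y ∈ A then 0 else ψ y) x‖ ≤ 2 * d * ε := by
    apply norm_lap_le
    intro y hy
    by_cases hyA : y ∈ A
    · rw [if_pos hyA, norm_zero]
      exact hε
    · rw [if_neg hyA]
      exact hs x hx y hy hyA
  gcongr

theorem dic (hnrm : NrmStmt) : DicStmt := by
  intro d V I μ L₀ k₀ hd hμ hTB hSep
  -- asymptotics
  have t1 := tendsto_poly_exp d (show 0 < μ / 4 by positivity) (1 / 8) (8 ^ d * Real.exp (4 / μ))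
  have t2 := tendsto_poly_exp d (show 0 < μ / 4 by positivity) 1 (2 * d * (2 * d))
  have t3 := tendsto_poly_exp d (show 0 < μ / 2 by positivity) 1 (2 * d)
  have e1 := t1.eventually (gt_mem_nhds one_pos)
  have e2 := t2.eventually (gt_mem_nhds one_pos)
  have e3 := t3.eventually (gt_mem_nhds one_pos)
  obtain ⟨K, hK⟩ := eventually_atTop.1 (e1.and (e2.and e3))
  refine ⟨max (max L₀ k₀) (max K 6), ?_⟩
  intro k hk E hE ψ hψ
  have hkL : L₀ ≤ k := le_trans (le_trans (le_max_left _ _) (le_max_left _ _)) hk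
  have hkk : k₀ ≤ k := le_trans (le_trans (le_max_right _ _) (le_max_left _ _)) hk
  have hkK : K ≤ k := le_trans (le_trans (le_max_left _ _) (le_max_right _ _)) hk
  have hk6 : 6 ≤ k := le_trans (le_trans (le_max_right _ _) (le_max_right _ _)) hk
  obtain ⟨a1, a2, a3⟩ := hK k hkK
  set ε : ℝ := 2 * d * (2 * k + 1) ^ d * Real.exp (-μ * k) with hεdef
  have hε0 : 0 ≤ ε := by rw [hεdef]; positivity
  have hεs : ε ≤ Real.exp (-(μ / 2) * k) := by
    have : ε = 2 * d * (2 * k + 1) ^ d * Real.exp (-(μ / 2) * k) * Real.exp (-(μ / 2) * k) := by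
      rw [hεdef, mul_assoc _ (Real.exp (-(μ / 2) * k)), ← Real.exp_add]
      congr 2
      ring
    rw [this]
    have h0 := (Real.exp_pos (-(μ / 2) * k)).le
    nlinarith
  have hsq : (6 : ℕ) * k ≤ k ^ 2 := by nlinarith
  have hfar : ∀ x : Site d, sd 0 x + k ≤ 8 * k → FGood V k x E μ → ‖ψ x‖ ≤ ε := by
    intro x hx hg
    have := fgood_bound hd hg (ψ := ψ) (M := 1) ?_ (fun y _ => hψ.le_one y)
    · rw [mul_one] at this
      exact this
    · intro y hy
      apply hψ.eq
      rw [mem_box] at *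
      have := sd_triangle 0 x y
      omega
  by_cases hall : ∀ x ∈ box (0 : Site d) (2 * k), FGood V k x E μ
  · left
    intro x hx
    refine (hfar x ?_ (hall x hx)).trans hεs
    rw [mem_box] at hx
    omega
  push Not at hall
  obtain ⟨x₀, hx₀, hbad⟩ := hall
  rw [mem_box] at hx₀
  have hmid : ∀ y : Site d, 4 * k < sd 0 y → sd 0 y ≤ 6 * k → ‖ψ y‖ ≤ ε := by
    intro y h1 h2
    apply hfar y (by omega)
    have h3 := sd_triangle 0 x₀ y
    rcases hTB k hkL x₀ (mem_box.2 (by omega)) y (mem_box.2 (by omega)) (by omega) E hE with h | h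
    · exact absurd h hbad
    · exact h
  set r : ℝ := Real.exp (-√k) with hrdef
  have hr : 0 < r := Real.exp_pos _
  -- the numerical inequality
  have hnum : (16 * (k : ℝ) + 1) ^ d * (2 * d * ε) ^ 2 ≤ r ^ 2 * Real.exp (-μ * k) := by
    have hsqrt : 2 * √k ≤ μ / 4 * k + 4 / μ := by
      have h1 : (√k) ^ 2 = k := Real.sq_sqrt (by positivity)
      have h2 : 0 ≤ (μ / 4) * (√k - 4 / μ) ^ 2 := by positivity
      have h3 : (μ / 4) * (√k - 4 / μ) ^ 2 = μ / 4 * (√k) ^ 2 - 2 * √k + 4 / μ := by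
        field_simp
        ring
      rw [h3, h1] at h2
      linarith
    have hr2 : 1 ≤ r ^ 2 * (Real.exp (4 / μ) * Real.exp (μ / 4 * k)) := by
      rw [hrdef, ← Real.exp_nat_mul, ← Real.exp_add, ← Real.exp_add]
      apply Real.one_le_exp
      push_cast
      linarith
    have h16 : (16 * (k : ℝ) + 1) ^ d = 8 ^ d * (2 * k + 1 / 8) ^ d := by
      rw [← mul_pow]
      congr 1
      ring
    have hA : (16 * (k : ℝ) + 1) ^ d * Real.exp (4 / μ) * Real.exp (-(μ / 4) * k) ≤ 1 := by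
      rw [h16]
      calc _ = 8 ^ d * Real.exp (4 / μ) * (2 * k + 1 / 8) ^ d * Real.exp (-(μ / 4) * k) := by ring
        _ ≤ 1 := a1.le
    have hB : 2 * d * (2 * d) * (2 * (k : ℝ) + 1) ^ d * Real.exp (-(μ / 4) * k) ≤ 1 := a2.le
    have hB0 : 0 ≤ 2 * d * (2 * d) * (2 * (k : ℝ) + 1) ^ d * Real.exp (-(μ / 4) * k) := by
      positivity
    set X := 2 * d * (2 * d) * (2 * (k : ℝ) + 1) ^ d * Real.exp (-(μ / 4) * k) with hX
    set Y := (16 * (k : ℝ) + 1) ^ d * Real.exp (4 / μ) * Real.exp (-(μ / 4) * k) with hY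
    have hY0 : 0 ≤ Y := by rw [hY]; positivity
    have e4 : (2 * d * ε) = X * Real.exp (-(3 * μ / 4) * k) := by
      rw [hX, hεdef, mul_assoc _ (Real.exp (-(μ / 4) * k)), ← Real.exp_add]
      have : -(μ / 4) * (k : ℝ) + -(3 * μ / 4) * k = -μ * k := by ring
      rw [this]
      ring
    have e5 : (16 * (k : ℝ) + 1) ^ d * (2 * d * ε) ^ 2 * (Real.exp (4 / μ) * Real.exp (μ / 4 * k)) =
        Y * X ^ 2 * Real.exp (-μ * k) := by
      rw [e4, hY, mul_pow, ← Real.exp_nat_mul]
      have h1 : Real.exp (((2 : ℕ) : ℝ) * (-(3 * μ / 4) * k)) * Real.exp (μ / 4 * k) =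
          Real.exp (-(μ / 4) * k) * Real.exp (-μ * k) := by
        rw [← Real.exp_add, ← Real.exp_add]
        congr 1
        push_cast
        ring
      calc _ = (16 * (k : ℝ) + 1) ^ d * X ^ 2 * Real.exp (4 / μ) *
            (Real.exp (((2 : ℕ) : ℝ) * (-(3 * μ / 4) * k)) * Real.exp (μ / 4 * k)) := by ring
        _ = _ := by rw [h1]; ring
    have hXY : Y * X ^ 2 ≤ 1 := by
      have : X ^ 2 ≤ 1 := pow_le_one₀ hB0 hB
      calc Y * X ^ 2 ≤ 1 * 1 := mul_le_mul hA this (by positivity) zero_le_one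
        _ = 1 := one_mul 1
    have hpos : 0 < Real.exp (4 / μ) * Real.exp (μ / 4 * k) := by positivity
    have h7 : (16 * (k : ℝ) + 1) ^ d * (2 * d * ε) ^ 2 *
        (Real.exp (4 / μ) * Real.exp (μ / 4 * k)) ≤
        r ^ 2 * Real.exp (-μ * k) * (Real.exp (4 / μ) * Real.exp (μ / 4 * k)) := by
      rw [e5]
      have h8 := (Real.exp_pos (-μ * k)).le
      calc Y * X ^ 2 * Real.exp (-μ * k) ≤ 1 * Real.exp (-μ * k) := by gcongr
        _ ≤ (r ^ 2 * (Real.exp (4 / μ) * Real.exp (μ / 4 * k))) * Real.exp (-μ * k) := by gcongr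
        _ = _ := by ring
    exact le_of_mul_le_mul_right h7 hpos
  have hexp2 : Real.exp (-μ * k) ≤ Real.exp (-(μ / 2) * k) := by
    apply Real.exp_le_exp.2
    have : (0 : ℝ) ≤ k := by positivity
    nlinarith
  rcases hSep k hkk E hE with h | h
  · left
    have hs := small_of_noEig hnrm hr h hε0 (ψ := ψ) ?_ ?_
    · intro x hx
      have hxA : x ∈ box (0 : Site d) (5 * k) := box_mono 0 (by omega) hx
      have h1 : ‖ψ x‖ ^ 2 ≤ ∑ x ∈ box (0 : Site d) (5 * k), ‖ψ x‖ ^ 2 :=
        Finset.single_le_sum (f := fun x => ‖ψ x‖ ^ 2) (fun y _ => by positivity) hxA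
      have h2 : ((box (0 : Site d) (5 * k)).card : ℝ) ≤ (16 * (k : ℝ) + 1) ^ d := by
        rw [card_box]
        push_cast
        have : (0 : ℝ) ≤ k := by positivity
        exact pow_le_pow_left₀ (by positivity) (by linarith) d
      have h3 : r ^ 2 * ‖ψ x‖ ^ 2 ≤ r ^ 2 * Real.exp (-μ * k) :=
        calc r ^ 2 * ‖ψ x‖ ^ 2 ≤ r ^ 2 * ∑ x ∈ box (0 : Site d) (5 * k), ‖ψ x‖ ^ 2 := by gcongr
          _ ≤ _ := hs
          _ ≤ (16 * (k : ℝ) + 1) ^ d * (2 * d * ε) ^ 2 := by gcongr
          _ ≤ _ := hnum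
      have h4 : ‖ψ x‖ ^ 2 ≤ Real.exp (-(μ / 2) * k) ^ 2 := by
        have h5 := le_of_mul_le_mul_left h3 (by positivity)
        rw [← Real.exp_nat_mul]
        have h6 : ((2 : ℕ) : ℝ) * (-(μ / 2) * k) = -μ * k := by push_cast; ring
        rw [h6]
        exact h5
      exact abs_le_of_sq_le_sq' h4 (Real.exp_pos _).le |>.2
    · intro x hx
      exact hψ.eq x (box_mono 0 (by omega) hx)
    · intro x hx y hy hyA
      rw [mem_box] at hx hy hyA
      have h1 := sd_triangle 0 x y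
      exact hmid y (by omega) (by omega)
  · right
    have hs := small_of_noEig hnrm hr h hε0 (ψ := ψ) ?_ ?_
    · have h2 : ((box (0 : Site d) (8 * k) \ box 0 (5 * k)).card : ℝ) ≤
          (16 * (k : ℝ) + 1) ^ d := by
        have h1 : (box (0 : Site d) (8 * k) \ box 0 (5 * k)).card ≤ (box (0 : Site d) (8 * k)).card :=
          Finset.card_le_card Finset.sdiff_subset
        rw [card_box] at h1
        calc ((box (0 : Site d) (8 * k) \ box 0 (5 * k)).card : ℝ)
            ≤ (((2 * (8 * k) + 1) ^ d : ℕ) : ℝ) := by exact_mod_cast h1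
          _ = _ := by push_cast; ring
      have h3 := le_of_mul_le_mul_left (hs.trans ((mul_le_mul_of_nonneg_right h2
        (by positivity)).trans hnum)) (by positivity)
      exact h3.trans hexp2
    · intro x hx
      exact hψ.eq x (Finset.mem_sdiff.1 hx).1
    · intro x hx y hy hyA
      rw [Finset.mem_sdiff, mem_box, mem_box, not_le] at hx
      rw [mem_box] at hy
      have h1 := sd_triangle 0 y x
      rw [sd_comm y x] at h1
      by_cases hy8 : y ∈ box (0 : Site d) (8 * k)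
      · have hy5 : y ∈ box (0 : Site d) (5 * k) := by
          by_contra hc
          exact hyA (Finset.mem_sdiff.2 ⟨hy8, hc⟩)
        rw [mem_box] at hy5
        exact hmid y (by omega) (by omega)
      · rw [hψ.supp y hy8, norm_zero]
        exact hε0

end Pool.Agent.Mob.H98
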